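import Pool.Agent.SGB.Stmts

/-!
# SEL: the abstract selection lemma of squad SGB
-/

set_option autoImplicit false

open Finset

namespace Pool.Agent.SGB.H18

universe u

/-- power mean inequality on a finite set, with arbitrary nonnegative weights -/
theorem power_mean {α : Type u} (s : Finset α) (w x : α → ℝ) (q : ℕ) (η N : ℝ)
    (hw : ∀ i ∈ s, 0 ≤ w i) (hx : ∀ i ∈ s, 0 ≤ x i) (hN : 0 < N) (hη : 0 < η)
    (hs : ∑ i ∈ s, w i = N) (h : η * N ≤ ∑ i ∈ s, w i * x i) :
    η ^ q * N ≤ ∑ i ∈ s, w i * x i ^ q := by
  have h1 := Real.pow_arith_mean_le_arith_mean_pow s (fun i => w i / N) x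
    (fun i hi => div_nonneg (hw i hi) hN.le)
    (by rw [← Finset.sum_div, hs, div_self hN.ne']) hx q
  have h2 : ∑ i ∈ s, w i / N * x i = (∑ i ∈ s, w i * x i) / N := by
    rw [Finset.sum_div]
    exact Finset.sum_congr rfl fun i _ => by ring
  have h3 : ∑ i ∈ s, w i / N * x i ^ q = (∑ i ∈ s, w i * x i ^ q) / N := by
    rw [Finset.sum_div]
    exact Finset.sum_congr rfl fun i _ => by ring
  rw [h2, h3] at h1
  have h4 : η ≤ (∑ i ∈ s, w i * x i) / N := by
    rw [le_div_iff₀ hN]; exact h
  have h5 : η ^ q ≤ (∑ i ∈ s, w i * x i ^ q) / N :=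
    (pow_le_pow_left₀ hη.le h4 q).trans h1
  rwa [le_div_iff₀ hN] at h5

open Classical in
theorem sel (hT : TUPStmt) : SELStmt.{u} := by
  intro Ω _ ι _ v R Z Bd P q η β γ M hv hZR hη hq hM hMdef hE hBd hP hnum
  by_contra hcon
  push Not at hcon
  -- notation
  set n : ℝ := (Fintype.card ι : ℝ) with hn
  set Q : Ω → ℝ := fun z => ∑ k, if R z k then v k else 0 with hQ
  set f : Ω → ι → ℝ := fun z h => ∑ k, if Z z k h then v k else 0 with hf
  set g : Ω → ι → ℝ := fun z k => if R z k then v k else 0 with hg
  have hQ0 : ∀ z, 0 ≤ Q z := fun z =>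
    Finset.sum_nonneg fun k _ => by split_ifs; exacts [(hv k).le, le_rfl]
  have hf0 : ∀ z h, 0 ≤ f z h := fun z h =>
    Finset.sum_nonneg fun k _ => by split_ifs; exacts [(hv k).le, le_rfl]
  have hg0 : ∀ z k, 0 ≤ g z k := fun z k => by
    simp only [hg]; split_ifs; exacts [(hv k).le, le_rfl]
  have hfQ : ∀ z h, f z h ≤ Q z := fun z h =>
    Finset.sum_le_sum fun k _ => by
      by_cases hz : Z z k h
      · rw [if_pos hz, if_pos (hZR z k h hz)]
      · rw [if_neg hz]; split_ifs; exacts [(hv k).le, le_rfl]
  have hMQ : M = ∑ z, Q z ^ 2 := hMdef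
  have hn0 : 0 < n := by
    rw [hn]
    by_contra hc
    have hc' : Fintype.card ι = 0 := by
      have : (Fintype.card ι : ℝ) ≤ 0 := not_lt.mp hc
      exact_mod_cast le_antisymm this (by positivity)
    have : IsEmpty ι := Fintype.card_eq_zero_iff.mp hc'
    rw [hMQ] at hM
    simp [hQ] at hM
  -- step 1
  have h1 : η ^ q * (n * M) ≤ ∑ p : Ω × ι, Q p.1 ^ 2 * ((f p.1 p.2 / Q p.1) ^ 2) ^ q := by
    refine power_mean Finset.univ (fun p : Ω × ι => Q p.1 ^ 2)
      (fun p => (f p.1 p.2 / Q p.1) ^ 2) q η (n * M)
      (fun p _ => sq_nonneg _) (fun p _ => sq_nonneg _) (mul_pos hn0 hM) hη ?_ ?_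
    · rw [Fintype.sum_prod_type]
      simp only [Finset.sum_const, Finset.card_univ, nsmul_eq_mul]
      rw [← Finset.mul_sum, ← hMQ]
    · rw [Fintype.sum_prod_type]
      calc η * (n * M) = η * n * M := by ring
        _ ≤ ∑ z, ∑ h, f z h ^ 2 := hE
        _ ≤ _ := by
          refine Finset.sum_le_sum fun z _ => Finset.sum_le_sum fun h _ => ?_
          by_cases hz : Q z = 0
          · have : f z h = 0 := le_antisymm (hz ▸ hfQ z h) (hf0 z h)
            simp [this]
          · have : Q z ^ 2 * (f z h / Q z) ^ 2 = f z h ^ 2 := by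
              field_simp
            rw [this]
  -- expansions
  set c : Ω → (Fin (2 * q) → ι) → ℝ := fun z k =>
    ((univ.filter fun h => ∀ a, Z z (k a) h).card : ℝ) with hc
  have hc0 : ∀ z k, 0 ≤ c z k := fun z k => Nat.cast_nonneg _
  have hcn : ∀ z k, c z k ≤ n := fun z k => by
    simp only [hc, hn]
    exact_mod_cast Finset.card_le_univ _
  set W : Ω → (Fin (2 * q) → ι) → ℝ := fun z k =>
    Q z ^ 2 / Q z ^ (2 * q) * ∏ a, g z (k a) with hW
  have hW0 : ∀ z k, 0 ≤ W z k := fun z k =>
    mul_nonneg (div_nonneg (sq_nonneg _) (pow_nonneg (hQ0 z) _))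
      (Finset.prod_nonneg fun a _ => hg0 z _)
  have h2 : ∀ z, ∑ h, Q z ^ 2 * ((f z h / Q z) ^ 2) ^ q = ∑ k, W z k * c z k := by
    intro z
    have e1 : ∀ h, Q z ^ 2 * ((f z h / Q z) ^ 2) ^ q =
        Q z ^ 2 / Q z ^ (2 * q) * f z h ^ (2 * q) := by
      intro h
      rw [← pow_mul, div_pow]
      ring
    have e2 : ∀ h, f z h ^ (2 * q) =
        ∑ k : Fin (2 * q) → ι, ∏ a, (if Z z (k a) h then v (k a) else 0) := by
      intro h
      have := Finset.prod_univ_sum (fun _ : Fin (2 * q) => (Finset.univ : Finset ι))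
        (fun _ k => if Z z k h then v k else 0)
      rw [Fintype.piFinset_univ] at this
      rw [← this, Finset.prod_const, Finset.card_univ, Fintype.card_fin]
    simp only [e1, e2]
    rw [← Finset.mul_sum, Finset.sum_comm, Finset.mul_sum]
    refine Finset.sum_congr rfl fun k _ => ?_
    have e3 : ∑ h, ∏ a, (if Z z (k a) h then v (k a) else 0) =
        (∏ a, g z (k a)) * c z k := by
      have e4 : ∀ h, ∏ a, (if Z z (k a) h then v (k a) else 0) =
          if ∀ a, Z z (k a) h then ∏ a, g z (k a) else 0 := by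
        intro h
        rw [Finset.prod_ite_zero]
        simp only [Finset.mem_univ, forall_const]
        by_cases hz : ∀ a, Z z (k a) h
        · rw [if_pos hz, if_pos hz]
          refine Finset.prod_congr rfl fun a _ => ?_
          simp only [hg]
          rw [if_pos (hZR z _ h (hz a))]
        · rw [if_neg hz, if_neg hz]
      simp only [e4]
      rw [← Finset.sum_filter, Finset.sum_const, nsmul_eq_mul, mul_comm]
    rw [e3]
    simp only [hW]
    ring
  have h3 : η ^ q * (n * M) ≤ ∑ z, ∑ k, W z k * c z k := by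
    refine h1.trans (le_of_eq ?_)
    rw [Fintype.sum_prod_type]
    exact Finset.sum_congr rfl fun z _ => h2 z
  -- the pointwise bound
  set bad : (Fin (2 * q) → ι) → Fin (2 * q) → Fin (2 * q) → ℝ := fun k a b =>
    if a ≠ b ∧ Bd (k a) (k b) then 1 else 0 with hbad
  have hbad0 : ∀ k a b, 0 ≤ bad k a b := fun k a b => by
    simp only [hbad]; split_ifs <;> norm_num
  have h4 : ∀ z k, W z k * c z k ≤ η ^ q / 2 * n * W z k +
      (if P z then n * W z k else 0) + ∑ a, ∑ b, n * (W z k * bad k a b) := by
    intro z k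
    have hS : 0 ≤ ∑ a, ∑ b, n * (W z k * bad k a b) :=
      Finset.sum_nonneg fun a _ => Finset.sum_nonneg fun b _ =>
        mul_nonneg hn0.le (mul_nonneg (hW0 z k) (hbad0 k a b))
    have hPn : 0 ≤ (if P z then n * W z k else 0) := by
      split_ifs; exacts [mul_nonneg hn0.le (hW0 z k), le_rfl]
    have hη0 : 0 ≤ η ^ q / 2 * n * W z k := by
      have := hW0 z k; positivity
    by_cases hPz : P z
    · rw [if_pos hPz]
      have : W z k * c z k ≤ n * W z k := by
        rw [mul_comm]; exact mul_le_mul_of_nonneg_right (hcn z k) (hW0 z k)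
      linarith
    · by_cases hR : ∀ a, R z (k a)
      · by_cases hB : ∀ a b, a ≠ b → ¬ Bd (k a) (k b)
        · have := hcon z hPz k hR hB
          have h5 : W z k * c z k ≤ η ^ q / 2 * n * W z k := by
            rw [mul_comm]
            exact mul_le_mul_of_nonneg_right this.le (hW0 z k)
          linarith
        · push Not at hB
          obtain ⟨a, b, hab, hB⟩ := hB
          have h5 : n * (W z k * bad k a b) ≤ ∑ a, ∑ b, n * (W z k * bad k a b) := by
            refine le_trans ?_ (Finset.single_le_sum
              (f := fun a => ∑ b, n * (W z k * bad k a b))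
              (fun a _ => Finset.sum_nonneg fun b _ =>
                mul_nonneg hn0.le (mul_nonneg (hW0 z k) (hbad0 k a b))) (Finset.mem_univ a))
            exact Finset.single_le_sum (f := fun b => n * (W z k * bad k a b))
              (fun b _ => mul_nonneg hn0.le (mul_nonneg (hW0 z k) (hbad0 k a b)))
              (Finset.mem_univ b)
          have h6 : bad k a b = 1 := by
            simp only [hbad]; rw [if_pos ⟨hab, hB⟩]
          rw [h6, mul_one] at h5
          have h7 : W z k * c z k ≤ n * W z k := by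
            rw [mul_comm]; exact mul_le_mul_of_nonneg_right (hcn z k) (hW0 z k)
          linarith
      · push Not at hR
        obtain ⟨a, ha⟩ := hR
        have : W z k = 0 := by
          simp only [hW]
          rw [Finset.prod_eq_zero (Finset.mem_univ a), mul_zero]
          simp only [hg]; rw [if_neg ha]
        have h0 : W z k * c z k ≤ 0 := by rw [this, zero_mul]
        linarith
  -- total mass
  have hsumg : ∀ z, ∑ k : Fin (2 * q) → ι, ∏ a, g z (k a) = Q z ^ (2 * q) := by
    intro z
    have := Finset.prod_univ_sum (fun _ : Fin (2 * q) => (Finset.univ : Finset ι))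
      (fun _ k => g z k)
    rw [Fintype.piFinset_univ] at this
    rw [← this, Finset.prod_const, Finset.card_univ, Fintype.card_fin]
  have hsumW : ∀ z, ∑ k, W z k = Q z ^ 2 := by
    intro z
    simp only [hW]
    rw [← Finset.mul_sum, hsumg]
    by_cases hz : Q z = 0
    · simp [hz]
    · field_simp
  -- pair sums
  set S : ℝ := ∑ z, ∑ k, ∑ l, if Bd k l ∧ R z k ∧ R z l then v k * v l else 0 with hS
  have hS0 : 0 ≤ S := Finset.sum_nonneg fun z _ => Finset.sum_nonneg fun k _ =>
    Finset.sum_nonneg fun l _ => by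
      split_ifs; exacts [mul_nonneg (hv k).le (hv l).le, le_rfl]
  have h5 : ∀ a b, ∑ z, ∑ k, W z k * bad k a b ≤ S := by
    intro a b
    by_cases hab : a = b
    · have : ∀ k, bad k a b = 0 := fun k => by
        simp only [hbad]; rw [if_neg]; exact fun h => h.1 hab
      simp only [this, mul_zero, Finset.sum_const_zero]
      exact hS0
    · refine Finset.sum_le_sum fun z _ => ?_
      have e1 := hT ι (2 * q) a b (g z) (fun x y => if Bd x y then 1 else 0) hab
      have e2 : ∑ k, W z k * bad k a b =
          Q z ^ 2 / Q z ^ (2 * q) * ∑ k : Fin (2 * q) → ι, (∏ c, g z (k c)) *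
            (if Bd (k a) (k b) then 1 else 0) := by
        rw [Finset.mul_sum]
        refine Finset.sum_congr rfl fun k _ => ?_
        simp only [hW, hbad]
        rw [mul_assoc]
        by_cases hB : Bd (k a) (k b)
        · rw [if_pos ⟨hab, hB⟩, if_pos hB]
        · rw [if_neg (fun h => hB h.2), if_neg hB]
      have e3 : ∑ x, ∑ y, g z x * g z y * (if Bd x y then 1 else 0) =
          ∑ k, ∑ l, if Bd k l ∧ R z k ∧ R z l then v k * v l else 0 := by
        refine Finset.sum_congr rfl fun x _ => Finset.sum_congr rfl fun y _ => ?_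
        simp only [hg]
        by_cases h1 : Bd x y <;> by_cases h2 : R z x <;> by_cases h3 : R z y <;>
          simp [h1, h2, h3]
      have e4 : (∑ x, g z x) = Q z := rfl
      rw [e2, e1, e3, e4]
      set T : ℝ := ∑ k, ∑ l, if Bd k l ∧ R z k ∧ R z l then v k * v l else 0 with hT'
      have hT0 : 0 ≤ T := Finset.sum_nonneg fun k _ =>
        Finset.sum_nonneg fun l _ => by
          split_ifs; exacts [mul_nonneg (hv k).le (hv l).le, le_rfl]
      by_cases hz : Q z = 0
      · simp [hz, hT0]
      · have : Q z ^ 2 / Q z ^ (2 * q) * (Q z ^ (2 * q - 2) * T) = T := by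
          have h8 : Q z ^ (2 * q) = Q z ^ 2 * Q z ^ (2 * q - 2) := by
            rw [← pow_add]; congr 1; omega
          rw [h8]
          have h9 : Q z ^ (2 * q - 2) ≠ 0 := pow_ne_zero _ hz
          field_simp
        exact this.le
  -- assembling
  have h6 : ∑ z, ∑ k, W z k * c z k ≤
      η ^ q / 2 * n * M + n * (γ * M) + (2 * q : ℝ) ^ 2 * (n * S) := by
    calc ∑ z, ∑ k, W z k * c z k
        ≤ ∑ z, ∑ k, (η ^ q / 2 * n * W z k +
            (if P z then n * W z k else 0) + ∑ a, ∑ b, n * (W z k * bad k a b)) :=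
          Finset.sum_le_sum fun z _ => Finset.sum_le_sum fun k _ => h4 z k
      _ = ∑ z, ∑ k, η ^ q / 2 * n * W z k + ∑ z, ∑ k, (if P z then n * W z k else 0) +
            ∑ z, ∑ k, ∑ a, ∑ b, n * (W z k * bad k a b) := by
          simp only [Finset.sum_add_distrib]
      _ ≤ _ := by
          refine add_le_add (add_le_add ?_ ?_) ?_
          · simp only [← Finset.mul_sum, hsumW]
            rw [← hMQ]
          · have e1 : ∀ z, ∑ k, (if P z then n * W z k else 0) =
                n * (if P z then Q z ^ 2 else 0) := by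
              intro z
              by_cases hz : P z
              · simp only [if_pos hz]; rw [← Finset.mul_sum, hsumW]
              · simp [if_neg hz]
            simp only [e1]
            rw [← Finset.mul_sum]
            exact mul_le_mul_of_nonneg_left hP hn0.le
          · have e1 : ∑ z, ∑ k, ∑ a, ∑ b, n * (W z k * bad k a b) =
                ∑ a, ∑ b, n * ∑ z, ∑ k, W z k * bad k a b := by
              have e2 : ∀ z, ∑ k, ∑ a, ∑ b, n * (W z k * bad k a b) =
                  ∑ a, ∑ b, ∑ k, n * (W z k * bad k a b) := by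
                intro z
                rw [Finset.sum_comm]
                refine Finset.sum_congr rfl fun a _ => ?_
                rw [Finset.sum_comm]
              simp only [e2]
              rw [Finset.sum_comm]
              refine Finset.sum_congr rfl fun a _ => ?_
              rw [Finset.sum_comm]
              refine Finset.sum_congr rfl fun b _ => ?_
              rw [Finset.mul_sum]
              refine Finset.sum_congr rfl fun z _ => ?_
              rw [Finset.mul_sum]
            rw [e1]
            calc ∑ a, ∑ b, n * ∑ z, ∑ k, W z k * bad k a b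
                ≤ ∑ a : Fin (2 * q), ∑ b : Fin (2 * q), n * S :=
                  Finset.sum_le_sum fun a _ => Finset.sum_le_sum fun b _ =>
                    mul_le_mul_of_nonneg_left (h5 a b) hn0.le
              _ = (2 * q : ℝ) ^ 2 * (n * S) := by
                  simp only [Finset.sum_const, Finset.card_univ, Fintype.card_fin,
                    nsmul_eq_mul]
                  push_cast
                  ring
  have h7 : η ^ q * (n * M) ≤ η ^ q / 2 * n * M + η ^ q / 4 * (n * M) := by
    refine (h3.trans h6).trans ?_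
    have e1 : (2 * q : ℝ) ^ 2 * (n * S) ≤ (2 * q : ℝ) ^ 2 * (n * (β * M)) :=
      mul_le_mul_of_nonneg_left (mul_le_mul_of_nonneg_left hBd hn0.le) (by positivity)
    have e2 : ((2 * q : ℝ) ^ 2 * β + γ) * (n * M) ≤ η ^ q / 4 * (n * M) :=
      mul_le_mul_of_nonneg_right hnum (mul_pos hn0 hM).le
    nlinarith [e1, e2]
  have h8 : 0 < η ^ q * (n * M) := by positivity
  nlinarith [h7, h8]

end Pool.Agent.SGB.H18
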